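import Pool.Agent.H69.LQ.Lib

/-!
# MP_8f7db2_an (quantitative local minimality), row CP: the coefficients as functions of the radius
-/

set_option autoImplicit false

open MeasureTheory Metric Set
open scoped ENNReal
open Pool.Agent.H85.LK (E adm lam Ann)
open Pool.Agent.H69.LQ

namespace Pool.Agent.H81.LQ

theorem C1_add {f f' g g' : ℝ → ℝ} (hf : C1 f f') (hg : C1 g g') :
    C1 (fun r => f r + g r) (fun r => f' r + g' r) :=
  ⟨fun x => (hf.1 x).add (hg.1 x), hf.2.add hg.2⟩

theorem C1_sub {f f' g g' : ℝ → ℝ} (hf : C1 f f') (hg : C1 g g') :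
    C1 (fun r => f r - g r) (fun r => f' r - g' r) :=
  ⟨fun x => (hf.1 x).sub (hg.1 x), hf.2.sub hg.2⟩

theorem C1_const_mul {f f' : ℝ → ℝ} (c : ℝ) (hf : C1 f f') :
    C1 (fun r => c * f r) (fun r => c * f' r) :=
  ⟨fun x => (hf.1 x).const_mul c, continuous_const.mul hf.2⟩

theorem C1_mul_const {f f' : ℝ → ℝ} (c : ℝ) (hf : C1 f f') :
    C1 (fun r => f r * c) (fun r => f' r * c) :=
  ⟨fun x => (hf.1 x).mul_const c, hf.2.mul continuous_const⟩

theorem C1_div_const {f f' : ℝ → ℝ} (c : ℝ) (hf : C1 f f') :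
    C1 (fun r => f r / c) (fun r => f' r / c) :=
  ⟨fun x => (hf.1 x).div_const c, hf.2.div_const c⟩

theorem C1_zero : C1 (fun _ => (0 : ℝ)) (fun _ => 0) :=
  ⟨fun x => hasDerivAt_const x 0, continuous_const⟩

theorem C1_sum {ι : Type} (s : Finset ι) {f f' : ι → ℝ → ℝ} (h : ∀ i, C1 (f i) (f' i)) :
    C1 (fun r => ∑ i ∈ s, f i r) (fun r => ∑ i ∈ s, f' i r) := by
  classical
  induction s using Finset.induction_on with
  | empty => simpa using C1_zero
  | insert i s hi ih =>
    have h1 := C1_add (h i) ih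
    simpa only [Finset.sum_insert hi] using h1

theorem C1_cont {f f' : ℝ → ℝ} (hf : C1 f f') : Continuous f :=
  continuous_iff_continuousAt.2 fun x => (hf.1 x).continuousAt

theorem pf_CP (hMO : T_MO) (hCO : T_CO) : T_CP := by
  intro N hN v hv
  obtain ⟨h1, h2⟩ := hCO N hN
  obtain ⟨hrs, hdr, hd, hP⟩ := h2 v hv
  obtain ⟨m0, m1, m2, -, -⟩ := hMO N hN
  have hA : ∀ P : Sp N → ℝ, Continuous P →
      C1 (fun r => av fun θ => rs v r θ * P θ) (fun r => av fun θ => dr v r θ * P θ) := by
    intro P hPc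
    refine ⟨hP P hPc, ?_⟩
    exact h1 (fun q => dr v q.1 q.2 * P q.2) (hdr.mul (hPc.comp continuous_snd))
  have hav : C1 (fun r => av (rs v r)) (fun r => av (dr v r)) := by
    have := hA (fun _ => 1) continuous_const
    simpa only [mul_one] using this
  have hc1 : ∀ j, C1 (fun r => c1 (rs v r) j) (fun r => c1 (dr v r) j) := by
    intro j
    exact C1_const_mul (N : ℝ) (hA (fun θ => (θ : E N) j) (by fun_prop))
  have hc2 : ∀ j k, C1 (fun r => c2 (rs v r) j k) (fun r => c2 (dr v r) j k) := by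
    intro j k
    refine C1_const_mul ((N : ℝ) * (N + 2) / 2) ?_
    refine C1_sub (hA (fun θ => (θ : E N) j * (θ : E N) k) (by fun_prop)) ?_
    by_cases hjk : j = k
    · simp only [if_pos hjk]
      exact C1_div_const _ hav
    · simp only [if_neg hjk]
      exact C1_zero
  have hr3 : ∀ θ : Sp N, C1 (fun r => r3 (rs v r) θ) (fun r => r3 (dr v r) θ) := by
    intro θ
    refine C1_sub (C1_sub (C1_sub ⟨fun r => hd r θ, ?_⟩ hav) ?_) ?_
    · exact hdr.comp (continuous_id.prodMk continuous_const)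
    · exact C1_sum _ fun j => C1_mul_const _ (hc1 j)
    · exact C1_sum _ fun j => C1_sum _ fun k => C1_mul_const _ (hc2 j k)
  have hcoord : ∀ j, Continuous fun q : ℝ × Sp N => (q.2 : E N) j := fun j => by fun_prop
  have hz1 : ∀ c : ℝ, ∀ j, c1 (fun _ : Sp N => c) j = 0 := by
    intro c j
    unfold c1
    rw [av_const_mul, m1 j]
    ring
  have hzav : ∀ c : ℝ, av (fun _ : Sp N => c) = c := by
    intro c
    have h3 := av_const_mul c (fun _ : Sp N => (1 : ℝ))
    rw [m0] at h3
    simpa only [mul_one] using h3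
  have hz2 : ∀ c : ℝ, ∀ j k, c2 (fun _ : Sp N => c) j k = 0 := by
    intro c j k
    unfold c2
    rw [av_const_mul, m2 j k, hzav c]
    by_cases hjk : j = k
    · rw [if_pos hjk, if_pos hjk]
      ring
    · rw [if_neg hjk, if_neg hjk]
      ring
  have hz : rs (N := N) v 0 = fun _ => v 0 := by
    funext θ
    unfold rs
    rw [zero_smul]
  refine ⟨hav, hc1, hc2, hr3, ?_, ?_, ?_, ?_, ?_⟩
  · refine ((hrs.sub ((C1_cont hav).comp continuous_fst)).sub ?_).sub ?_
    · exact continuous_finsetSum _ fun j _ =>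
        ((C1_cont (hc1 j)).comp continuous_fst).mul (hcoord j)
    · exact continuous_finsetSum _ fun j _ => continuous_finsetSum _ fun k _ =>
        ((C1_cont (hc2 j k)).comp continuous_fst).mul ((hcoord j).mul (hcoord k))
  · refine ((hdr.sub (hav.2.comp continuous_fst)).sub ?_).sub ?_
    · exact continuous_finsetSum _ fun j _ => ((hc1 j).2.comp continuous_fst).mul (hcoord j)
    · exact continuous_finsetSum _ fun j _ => continuous_finsetSum _ fun k _ =>
        ((hc2 j k).2.comp continuous_fst).mul ((hcoord j).mul (hcoord k))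
  · intro j
    rw [hz]
    exact hz1 _ j
  · intro j k
    rw [hz]
    exact hz2 _ j k
  · intro θ
    rw [hz]
    unfold r3
    rw [hzav]
    simp only [hz1, hz2, zero_mul, Finset.sum_const_zero, sub_self]

end Pool.Agent.H81.LQ
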